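import Mathlib
import Pool.Agent.W8.LS.Stm

/-!
Project LS: local inverse of cosh at the branch point (helper408).
-/

open scoped Topology ContDiff
open Complex (I)

namespace Pool.Agent.W408.LS

open Pool.Agent.W8.LS hiding sq

noncomputable section

/-- `cosh (2 π z)` as a function of `u = z^2/2` -/
def Ef (u : ℂ) : ℂ := Complex.cosh (2 * (Real.pi : ℂ) * W8.LS.sq u)

theorem sq_sq (u : ℂ) : W8.LS.sq u ^ 2 = 2 * u := by
  unfold W8.LS.sq
  rw [← Complex.cpow_nat_mul]
  norm_num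

theorem cosh_eq_of_sq {a b : ℂ} (h : a ^ 2 = b ^ 2) :
    Complex.cosh (2 * (Real.pi : ℂ) * a) = Complex.cosh (2 * (Real.pi : ℂ) * b) := by
  rcases sq_eq_sq_iff_eq_or_eq_neg.mp h with h1 | h1
  · rw [h1]
  · rw [h1, mul_neg, Complex.cosh_neg]

theorem Ef_eq {u z : ℂ} (h : z ^ 2 = 2 * u) :
    Ef u = Complex.cosh (2 * (Real.pi : ℂ) * z) := by
  unfold Ef
  exact cosh_eq_of_sq (by rw [sq_sq, h])

theorem norm_sq_sq (u : ℂ) : ‖W8.LS.sq u‖ ^ 2 = 2 * ‖u‖ := by
  rw [← norm_pow, sq_sq]; simp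

theorem sq_zero' : W8.LS.sq 0 = 0 := by
  unfold W8.LS.sq; simp

theorem tendsto_sq_zero : Filter.Tendsto W8.LS.sq (𝓝 0) (𝓝 0) := by
  rw [tendsto_zero_iff_norm_tendsto_zero]
  have h : Filter.Tendsto (fun u : ℂ => Real.sqrt (2 * ‖u‖)) (𝓝 0) (𝓝 0) := by
    have : ContinuousAt (fun u : ℂ => Real.sqrt (2 * ‖u‖)) 0 := by fun_prop
    simpa [ContinuousAt] using this
  refine h.congr fun u => ?_
  rw [← norm_sq_sq, Real.sqrt_sq (norm_nonneg _)]

theorem Ef_diff_ne {u : ℂ} (hu : u ≠ 0) : DifferentiableAt ℂ Ef u := by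
  by_cases h : 2 * u ∈ Complex.slitPlane
  · have h1 : DifferentiableAt ℂ (fun v : ℂ => Complex.cosh (2 * (Real.pi : ℂ) *
        (2 * v) ^ (1 / 2 : ℂ))) u := by
      have h2 : DifferentiableAt ℂ (fun v : ℂ => (2 * v) ^ (1 / 2 : ℂ)) u :=
        DifferentiableAt.cpow (by fun_prop) (by fun_prop) h
      exact (h2.const_mul _).ccosh
    exact h1
  · have h' : -(2 * u) ∈ Complex.slitPlane := by
      rw [Complex.mem_slitPlane_iff] at h ⊢
      push Not at h
      left
      have h3 : (2 * u) ≠ 0 := mul_ne_zero two_ne_zero hu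
      rcases lt_or_eq_of_le h.1 with h4 | h4
      · simp only [Complex.neg_re]; linarith
      · exact absurd (Complex.ext h4 h.2) h3
    have h1 : DifferentiableAt ℂ (fun v : ℂ => Complex.cosh (2 * (Real.pi : ℂ) *
        (I * (-(2 * v)) ^ (1 / 2 : ℂ)))) u := by
      have h2 : DifferentiableAt ℂ (fun v : ℂ => (-(2 * v)) ^ (1 / 2 : ℂ)) u :=
        DifferentiableAt.cpow (by fun_prop) (by fun_prop) h'
      exact ((h2.const_mul I).const_mul _).ccosh
    refine h1.congr_of_eventuallyEq (Filter.Eventually.of_forall fun v => ?_)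
    refine Ef_eq ?_
    rw [mul_pow, Complex.I_sq, ← Complex.cpow_nat_mul]
    norm_num

theorem cosh_sub_one (z : ℂ) : Complex.cosh (2 * (Real.pi : ℂ) * z) - 1 =
    2 * Complex.sinh ((Real.pi : ℂ) * z) ^ 2 := by
  have h := Complex.cosh_two_mul ((Real.pi : ℂ) * z)
  have h2 := Complex.cosh_sq ((Real.pi : ℂ) * z)
  rw [show 2 * (Real.pi : ℂ) * z = 2 * ((Real.pi : ℂ) * z) by ring, h, h2]
  ring

theorem Ef_zero : Ef 0 = 1 := by
  rw [Ef, sq_zero']; simp

theorem Ef_deriv_zero : HasDerivAt Ef (4 * (Real.pi : ℂ) ^ 2) 0 := by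
  rw [hasDerivAt_iff_tendsto_slope]
  have hs : HasDerivAt (fun z : ℂ => Complex.sinh ((Real.pi : ℂ) * z)) (Real.pi : ℂ) 0 := by
    have h1 : HasDerivAt (fun z : ℂ => (Real.pi : ℂ) * z) (Real.pi : ℂ) 0 := by
      simpa using (hasDerivAt_id (0 : ℂ)).const_mul (Real.pi : ℂ)
    simpa using h1.csinh
  have hs2 := hs.tendsto_slope
  have h3 : Filter.Tendsto W8.LS.sq (𝓝[≠] 0) (𝓝[≠] 0) := by
    rw [tendsto_nhdsWithin_iff]
    refine ⟨tendsto_sq_zero.mono_left nhdsWithin_le_nhds, ?_⟩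
    filter_upwards [self_mem_nhdsWithin] with u hu
    intro h
    have h4 := sq_sq u
    simp only [Set.mem_singleton_iff] at h
    rw [h] at h4
    have : u = 0 := by
      have h5 : 2 * u = 0 := by rw [← h4]; simp
      simpa using h5
    exact hu this
  have h4 := (hs2.comp h3).pow 2 |>.const_mul 4
  refine h4.congr' ?_
  filter_upwards [self_mem_nhdsWithin] with u hu
  have hu' : u ≠ 0 := hu
  have hz : W8.LS.sq u ≠ 0 := by
    intro h
    have h4 := sq_sq u
    rw [h] at h4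
    have h5 : 2 * u = 0 := by rw [← h4]; simp
    exact hu' (by simpa using h5)
  simp only [Function.comp, slope_def_field, Ef_zero, sub_zero, mul_zero, Complex.sinh_zero]
  have h6 : Ef u - 1 = 2 * Complex.sinh ((Real.pi : ℂ) * W8.LS.sq u) ^ 2 := cosh_sub_one _
  have h7 : u = W8.LS.sq u ^ 2 / 2 := by rw [sq_sq]; ring
  rw [h6]
  nth_rewrite 4 [h7]
  field_simp
  ring

theorem Ef_differentiable : Differentiable ℂ Ef := by
  intro u
  by_cases h : u = 0
  · rw [h]; exact Ef_deriv_zero.differentiableAt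
  · exact Ef_diff_ne h

theorem CoshBranch_proof : CoshBranch := by
  have hA : ContDiffAt ℂ ω Ef 0 := (Ef_differentiable.analyticAt 0).contDiffAt
  have hpi : (4 * (Real.pi : ℂ) ^ 2) ≠ 0 := by
    have : (Real.pi : ℂ) ≠ 0 := by exact_mod_cast Real.pi_ne_zero
    exact mul_ne_zero (by norm_num) (pow_ne_zero _ this)
  have hF := Ef_deriv_zero.hasFDerivAt_equiv hpi
  have hn : (ω : WithTop ℕ∞) ≠ 0 := by simp
  have hS : HasStrictFDerivAt Ef _ (0 : ℂ) := hA.hasStrictFDerivAt' hF hn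
  have h0 := hA.localInverse_apply_image hF hn
  have h1 := hA.to_localInverse hF hn
  have h2 := hS.eventually_right_inverse
  have h3 : HasStrictFDerivAt (hA.localInverse hF hn) _ (Ef 0) := hS.to_localInverse
  rw [Ef_zero] at h0 h1 h2 h3
  refine ⟨hA.localInverse hF hn, ?_, h0, ?_, ?_⟩
  · exact (h1.eventually (by simp)).mono fun w hw => hw.of_le le_top
  · have h4 := h3.hasFDerivAt.hasDerivAt.deriv
    rw [h4]
    intro h5
    have h6 := (ContinuousLinearEquiv.injective (ContinuousLinearEquiv.symm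
      (ContinuousLinearEquiv.unitsEquivAut ℂ (Units.mk0 _ hpi)))) 
    exact one_ne_zero (α := ℂ) (h6 (by simpa using h5))
  · have h4 : Filter.Tendsto (hA.localInverse hF hn) (𝓝 1) (𝓝 0) := by
      have := h3.continuousAt
      rwa [ContinuousAt, h0] at this
    have h5 : ∀ᶠ w in 𝓝 (1 : ℂ), ‖hA.localInverse hF hn w‖ < 1 / 512 := by
      have := h4.norm
      rw [norm_zero] at this
      exact this.eventually (gt_mem_nhds (by norm_num))
    filter_upwards [h2, h5] with w hw hw5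
    refine ⟨W8.LS.sq (hA.localInverse hF hn w), hw, ?_, ?_⟩
    · rw [sq_sq]; ring
    · have h6 := norm_sq_sq (hA.localInverse hF hn w)
      nlinarith [norm_nonneg (W8.LS.sq (hA.localInverse hF hn w))]

end

end Pool.Agent.W408.LS
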